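import Mathlib

/-!
# One formula for all orders `0 < p ≤ ∞` and all sets of centres
-/

set_option autoImplicit false

open MeasureTheory Real Set

namespace Pool.Agent.Helper92.CP

/-- the norm in `L^p[X, 2X]`, `0 < p ≤ ∞`; for `p = ∞` the supremum over all `R` in `[X, 2X]` -/
noncomputable def lpN (p : ENNReal) (X : ℝ) (f : ℝ → ENNReal) : ENNReal :=
  if p = ⊤ then ⨆ R ∈ Icc X (2 * X), f R else (∫⁻ R in Icc X (2 * X), f R ^ p.toReal) ^ (1 / p.toReal)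

theorem lpN_mono (p : ENNReal) {X : ℝ} {f g : ℝ → ENNReal} (h : ∀ R ∈ Icc X (2 * X), f R ≤ g R) : lpN p X f ≤ lpN p X g := by
  unfold lpN
  split_ifs with h1
  · exact iSup₂_mono h
  · refine ENNReal.rpow_le_rpow (setLIntegral_mono' measurableSet_Icc fun R hR => ?_) (by positivity)
    exact ENNReal.rpow_le_rpow (h R hR) ENNReal.toReal_nonneg

/-- from the power to the norm -/
theorem lpN_le {p : ENNReal} (hp : 0 < p) (hp' : p ≠ ⊤) {X : ℝ} (hX : 1 ≤ X) {f : ℝ → ENNReal} {C e ε : ℝ}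
    (h : ∫⁻ R in Icc X (2 * X), f R ^ p.toReal ≤ ENNReal.ofReal (C * X ^ (1 + p.toReal * e + p.toReal * ε))) :
    lpN p X f ≤ ENNReal.ofReal (|C| ^ (1 / p.toReal) * X ^ (1 / p.toReal + e + ε)) := by
  have hq : 0 < p.toReal := ENNReal.toReal_pos hp.ne' hp'
  have hX0 : 0 < X := by linarith
  unfold lpN
  rw [if_neg hp']
  have h1 : ENNReal.ofReal (C * X ^ (1 + p.toReal * e + p.toReal * ε)) ≤ ENNReal.ofReal (|C| * X ^ (1 + p.toReal * e + p.toReal * ε)) :=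
    ENNReal.ofReal_le_ofReal (mul_le_mul_of_nonneg_right (le_abs_self C) (by positivity))
  refine (ENNReal.rpow_le_rpow (h.trans h1) (by positivity)).trans (le_of_eq ?_)
  rw [ENNReal.ofReal_rpow_of_nonneg (by positivity) (by positivity), Real.mul_rpow (abs_nonneg _) (by positivity), ← Real.rpow_mul hX0.le]
  congr 3
  field_simp

theorem iSup_rpow {ι : Type*} (f : ι → ENNReal) {q : ℝ} (hq : 0 < q) : (⨆ i, f i) ^ q = ⨆ i, f i ^ q :=
  (ENNReal.orderIsoRpow q hq).map_iSup f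

/-- the formula, from the pointwise bound, the moments at the worst centre and, under the hypothesis `d`, the moments at each centre -/
theorem one {E : ℝ × ℝ → ℝ → ℝ} (hE : ∀ c R, 0 ≤ E c R) {κ : ℝ} (hκ : 0 ≤ κ) (d : Prop)
    (hpt : ∀ ε : ℝ, 0 < ε → ∃ C : ℝ, ∀ R : ℝ, 1 ≤ R → ∀ c : ℝ × ℝ, E c R ≤ C * R ^ (κ + ε))
    (hw : ∀ p : ℝ, 0 < p → ∀ ε : ℝ, 0 < ε → ∃ C : ℝ, ∀ X : ℝ, 1 ≤ X →
      ∫⁻ R in Icc X (2 * X), ⨆ c : ℝ × ℝ, ENNReal.ofReal (E c R ^ p) ≤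
        ENNReal.ofReal (C * X ^ (1 + p * (1 / 2 + (κ - 1 / 2) * max 0 (1 - 8 / p)) + ε)))
    (hs : d → ∀ p : ℝ, 0 < p → ∀ ε : ℝ, 0 < ε → ∃ C : ℝ, ∀ X : ℝ, 1 ≤ X → ∀ c : ℝ × ℝ,
      ∫⁻ R in Icc X (2 * X), ENNReal.ofReal (E c R ^ p) ≤
        ENNReal.ofReal (C * X ^ (1 + p * (1 / 2 + (κ - 1 / 2) * max 0 (1 - 10 / p)) + ε)))
    {P : Set (ℝ × ℝ) → ℝ} (hP : ∀ A, P A = 8 ∨ (d ∧ A.Subsingleton ∧ P A = 10))
    {p : ENNReal} (hp : 0 < p) {ε : ℝ} (hε : 0 < ε) : ∃ C : ℝ, ∀ X : ℝ, 1 ≤ X → ∀ A : Set (ℝ × ℝ),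
      lpN p X (fun R => ⨆ c ∈ A, ENNReal.ofReal (E c R)) ≤
        ENNReal.ofReal (C * X ^ (1 / p.toReal + (1 / 2 + (κ - 1 / 2) * max 0 (1 - P A / p.toReal)) + ε)) := by
  by_cases hp' : p = ⊤
  · subst hp'
    obtain ⟨C, hC⟩ := hpt ε hε
    refine ⟨|C| * 2 ^ (κ + ε), fun X hX A => ?_⟩
    have hX0 : 0 < X := by linarith
    unfold lpN
    rw [if_pos rfl]
    have e : 1 / (⊤ : ENNReal).toReal + (1 / 2 + (κ - 1 / 2) * max 0 (1 - P A / (⊤ : ENNReal).toReal)) + ε = κ + ε := by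
      rw [ENNReal.toReal_top, div_zero, div_zero, sub_zero, max_eq_right zero_le_one]
      ring
    rw [e]
    refine iSup₂_le fun R hR => iSup₂_le fun c _ => ENNReal.ofReal_le_ofReal ?_
    have hR0 : 0 < R := lt_of_lt_of_le hX0 hR.1
    have h1 := hC R (hX.trans hR.1) c
    have h2 : R ^ (κ + ε) ≤ (2 * X) ^ (κ + ε) := Real.rpow_le_rpow hR0.le hR.2 (by linarith)
    rw [Real.mul_rpow (by norm_num) hX0.le] at h2
    calc E c R ≤ C * R ^ (κ + ε) := h1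
      _ ≤ |C| * R ^ (κ + ε) := mul_le_mul_of_nonneg_right (le_abs_self C) (by positivity)
      _ ≤ |C| * (2 ^ (κ + ε) * X ^ (κ + ε)) := mul_le_mul_of_nonneg_left h2 (abs_nonneg C)
      _ = |C| * 2 ^ (κ + ε) * X ^ (κ + ε) := by ring
  · have hq : 0 < p.toReal := ENNReal.toReal_pos hp.ne' hp'
    obtain ⟨C, hC⟩ := hw p.toReal hq (p.toReal * ε) (by positivity)
    obtain ⟨C', hC'⟩ : ∃ C' : ℝ, d → ∀ X : ℝ, 1 ≤ X → ∀ c : ℝ × ℝ,
        ∫⁻ R in Icc X (2 * X), ENNReal.ofReal (E c R ^ p.toReal) ≤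
          ENNReal.ofReal (C' * X ^ (1 + p.toReal * (1 / 2 + (κ - 1 / 2) * max 0 (1 - 10 / p.toReal)) + p.toReal * ε)) := by
      by_cases hd : d
      · obtain ⟨C', hC'⟩ := hs hd p.toReal hq (p.toReal * ε) (by positivity)
        exact ⟨C', fun _ => hC'⟩
      · exact ⟨0, fun h => absurd h hd⟩
    refine ⟨|C| ^ (1 / p.toReal) + |C'| ^ (1 / p.toReal), fun X hX A => ?_⟩
    have hX0 : 0 < X := by linarith
    have ha : 0 ≤ |C| ^ (1 / p.toReal) := by positivity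
    have hb : 0 ≤ |C'| ^ (1 / p.toReal) := by positivity
    have hpow : ∀ (c : ℝ × ℝ) (R : ℝ), ENNReal.ofReal (E c R) ^ p.toReal = ENNReal.ofReal (E c R ^ p.toReal) := fun c R =>
      ENNReal.ofReal_rpow_of_nonneg (hE c R) hq.le
    rcases hP A with h8 | ⟨hd, hA, h10⟩
    · rw [h8]
      have h1 : lpN p X (fun R => ⨆ c ∈ A, ENNReal.ofReal (E c R)) ≤ lpN p X (fun R => ⨆ c, ENNReal.ofReal (E c R)) :=
        lpN_mono p fun R _ => iSup₂_le fun c _ => le_iSup (fun c => ENNReal.ofReal (E c R)) c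
      refine h1.trans ((lpN_le hp hp' hX (C := C) (e := 1 / 2 + (κ - 1 / 2) * max 0 (1 - 8 / p.toReal)) (ε := ε) ?_).trans
        (ENNReal.ofReal_le_ofReal (mul_le_mul_of_nonneg_right (by linarith) (by positivity))))
      refine le_trans (le_of_eq ?_) (hC X hX)
      refine lintegral_congr fun R => ?_
      rw [iSup_rpow _ hq]
      simp only [hpow]
    · rw [h10]
      rcases hA.eq_empty_or_singleton with h0 | ⟨c, h0⟩
      · have h1 : lpN p X (fun R => ⨆ c ∈ A, ENNReal.ofReal (E c R)) ≤ 0 := by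
          rw [h0]
          unfold lpN
          rw [if_neg hp']
          have e : ∀ R : ℝ, (⨆ c ∈ (∅ : Set (ℝ × ℝ)), ENNReal.ofReal (E c R)) ^ p.toReal = 0 := fun R => by
            simp [ENNReal.zero_rpow_of_pos hq]
          simp only [e, lintegral_zero]
          exact (ENNReal.zero_rpow_of_pos (by positivity)).le
        exact h1.trans bot_le
      · have h1 : lpN p X (fun R => ⨆ c ∈ A, ENNReal.ofReal (E c R)) ≤ lpN p X (fun R => ENNReal.ofReal (E c R)) := by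
          refine lpN_mono p fun R _ => ?_
          rw [h0]
          simp
        refine h1.trans ((lpN_le hp hp' hX (C := C') (e := 1 / 2 + (κ - 1 / 2) * max 0 (1 - 10 / p.toReal)) (ε := ε) ?_).trans
          (ENNReal.ofReal_le_ofReal (mul_le_mul_of_nonneg_right (by linarith) (by positivity))))
        refine le_trans (le_of_eq ?_) (hC' hd X hX c)
        refine lintegral_congr fun R => ?_
        rw [hpow]

end Pool.Agent.Helper92.CP
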