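import Pool.Agent.Helper53.CP.Wc2
import Pool.Agent.Helper11.AD.Small
import Pool.Agent.Helper22.AE.P1

/-!
# CP-Wc3: the eighth moment at the worst centre

`wc8`: `int_[X, 2X] sup_c |E_c(R)|^8 dR <= C X^(5+eps)` for every oval of class `C^3` (in the form of a continuous majorant of the supremum). Induction over
the levels `tau = j eta`: the error is below `C R0^(1 - j eta)` or its eighth power is below `W R`; the first level is trivial, the last one has `j eta >= 1/2`.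
-/

open MeasureTheory Real Set Filter Topology

set_option autoImplicit false

namespace Pool.Agent.Helper92.CP

open Pool.Agent.Helper22.AE
open Pool.Agent.Helper22.AC
open Pool.Agent.Helper53.CP (level)

/-- the trivial level -/
private theorem base84 {H : ℝ → ℝ} (hH : IsSupp H) {φ : ℝ × ℝ → ℝ} (hφ : IsBump φ) {η : ℝ} (hη : 0 < η) (hη8 : η ≤ 1 / 8) :
    ∃ C R₁ : ℝ, 1 ≤ C ∧ 1 ≤ R₁ ∧ ∀ R₀ : ℝ, R₁ ≤ R₀ → ∀ R ∈ Icc R₀ (2 * R₀), ∀ c : ℝ × ℝ,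
      |cntc H c R - area H * R ^ 2| ≤ C * R₀ ^ (1 - η) := by
  obtain ⟨C, R₁, hR₁, h⟩ := errc_le_blocks hH hφ hη (by linarith : η < 1) hη
  obtain ⟨C₁, hC₁, hV⟩ := VKc_trivial hH hφ
  refine ⟨1 + |C| + 4 * C₁, max R₁ 1, by linarith [abs_nonneg C], le_max_right _ _, ?_⟩
  intro R₀ hR₀ R hR c
  have hR1 : 1 ≤ R₀ := (le_max_right _ _).trans hR₀
  have hR0 : 0 < R₀ := by linarith
  obtain ⟨n1, hn1, hn2⟩ : ∃ n1 : ℕ, R₀ ^ (η + η) ≤ 2 ^ n1 ∧ (2 : ℝ) ^ n1 ≤ 2 * R₀ ^ (η + η) := by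
    have h1 : 1 ≤ R₀ ^ (η + η) := Real.one_le_rpow hR1 (by linarith)
    obtain ⟨n, h2, h3⟩ := exists_nat_pow_near h1 (by norm_num : (1 : ℝ) < 2)
    refine ⟨n + 1, h3.le, ?_⟩
    rw [pow_succ]
    linarith
  obtain ⟨σ, hσ, hs, hE⟩ := h R₀ ((le_max_left _ _).trans hR₀) R hR c n1 hn1
  have hδ : R₀ ^ (-η) ∈ Icc (0 : ℝ) 1 := by
    refine ⟨by positivity, ?_⟩
    exact Real.rpow_le_one_of_one_le_of_nonpos hR1 (by linarith)
  have hterm : ∀ n ∈ Finset.range n1, ‖VKc φ (fun θ => R * H θ + σ * R₀ ^ (-η)) (R₀ ^ (-η)) n c‖ ≤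
      C₁ * R₀ ^ (1 / 2 : ℝ) * (2 : ℝ) ^ ((n1 : ℝ) / 2) := by
    intro n hn
    refine (hV R₀ hR1 n _ hδ σ hσ R hR hs c).trans ?_
    refine mul_le_mul_of_nonneg_left ?_ (by positivity)
    refine Real.rpow_le_rpow_of_exponent_le (by norm_num) ?_
    have : (n : ℝ) ≤ n1 := by exact_mod_cast (Finset.mem_range.1 hn).le
    linarith
  have hsum := Finset.sum_le_card_nsmul _ _ _ hterm
  rw [Finset.card_range, nsmul_eq_mul] at hsum
  have hn : (n1 : ℝ) ≤ 2 ^ n1 := by exact_mod_cast (Nat.lt_two_pow_self).le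
  have e1 : (2 : ℝ) ^ ((n1 : ℝ) / 2) = ((2 : ℝ) ^ n1) ^ (1 / 2 : ℝ) := by
    rw [← Real.rpow_natCast 2 n1, ← Real.rpow_mul (by norm_num)]
    congr 1
    ring
  have h5 : (2 : ℝ) ^ ((n1 : ℝ) / 2) ≤ (2 * R₀ ^ (η + η)) ^ (1 / 2 : ℝ) := by
    rw [e1]
    exact Real.rpow_le_rpow (by positivity) hn2 (by norm_num)
  have h6 : (2 * R₀ ^ (η + η)) ^ (1 / 2 : ℝ) ≤ 2 * R₀ ^ η := by
    rw [Real.mul_rpow (by norm_num) (by positivity), ← Real.rpow_mul hR0.le]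
    have h7 : (2 : ℝ) ^ (1 / 2 : ℝ) ≤ 2 := by
      calc (2 : ℝ) ^ (1 / 2 : ℝ) ≤ 2 ^ (1 : ℝ) := Real.rpow_le_rpow_of_exponent_le (by norm_num) (by norm_num)
        _ = 2 := Real.rpow_one 2
    have e2 : (η + η) * (1 / 2) = η := by ring
    rw [e2]
    exact mul_le_mul_of_nonneg_right h7 (by positivity)
  have h8 : (n1 : ℝ) * (C₁ * R₀ ^ (1 / 2 : ℝ) * (2 : ℝ) ^ ((n1 : ℝ) / 2)) ≤ 4 * C₁ * R₀ ^ (1 - η) := by
    calc (n1 : ℝ) * (C₁ * R₀ ^ (1 / 2 : ℝ) * (2 : ℝ) ^ ((n1 : ℝ) / 2))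
        ≤ (2 * R₀ ^ (η + η)) * (C₁ * R₀ ^ (1 / 2 : ℝ) * (2 * R₀ ^ η)) := by
          refine mul_le_mul (hn.trans hn2) ?_ (by positivity) (by positivity)
          exact mul_le_mul_of_nonneg_left (h5.trans h6) (by positivity)
      _ = 4 * C₁ * (R₀ ^ (η + η) * R₀ ^ (1 / 2 : ℝ) * R₀ ^ η) := by ring
      _ = 4 * C₁ * R₀ ^ (η + η + 1 / 2 + η) := by rw [← Real.rpow_add hR0, ← Real.rpow_add hR0]
      _ ≤ 4 * C₁ * R₀ ^ (1 - η) :=
        mul_le_mul_of_nonneg_left (Real.rpow_le_rpow_of_exponent_le hR1 (by linarith)) (by positivity)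
  have h9 : C * R₀ ^ (1 - η) ≤ |C| * R₀ ^ (1 - η) := mul_le_mul_of_nonneg_right (le_abs_self C) (by positivity)
  have h10 : (1 + |C| + 4 * C₁) * R₀ ^ (1 - η) = R₀ ^ (1 - η) + |C| * R₀ ^ (1 - η) + 4 * C₁ * R₀ ^ (1 - η) := by ring
  have h11 : 0 ≤ R₀ ^ (1 - η) := by positivity
  rw [h10]
  linarith

/-- the levels -/
private theorem grid84 {H : ℝ → ℝ} (hH : IsSupp H) (h3 : ContDiff ℝ 3 H) {φ : ℝ × ℝ → ℝ} (hφ : IsBump φ) {η : ℝ} (hη : 0 < η)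
    (hη8 : η ≤ 1 / 8) : ∀ j : ℕ, ((j : ℝ) + 1) * η + η < 1 → ∃ C R₁ : ℝ, 1 ≤ C ∧ 1 ≤ R₁ ∧ ∀ R₀ : ℝ, R₁ ≤ R₀ →
      ∃ W : ℝ → ℝ, Continuous W ∧ (∀ R, 0 ≤ W R) ∧
        (∀ R ∈ Icc R₀ (2 * R₀), ∀ c : ℝ × ℝ, |cntc H c R - area H * R ^ 2| ≤ C * R₀ ^ (1 - ((j : ℝ) + 1) * η) ∨
          |cntc H c R - area H * R ^ 2| ^ 8 ≤ W R) ∧
        ∫ R in Icc R₀ (2 * R₀), W R ≤ C * R₀ ^ (5 + 20 * η) := by
  intro j
  induction j with
  | zero =>
    intro _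
    obtain ⟨C, R₁, hC, hR₁, h⟩ := base84 hH hφ hη hη8
    refine ⟨C, R₁, hC, hR₁, fun R₀ hR₀ => ⟨fun _ => 0, continuous_const, fun _ => le_rfl, fun R hR c => Or.inl ?_, ?_⟩⟩
    · have h2 := h R₀ hR₀ R hR c
      have e : (((0 : ℕ) : ℝ) + 1) * η = η := by push_cast; ring
      rw [e]
      exact h2
    · have hR0 : 0 < R₀ := by linarith
      rw [integral_zero]
      positivity
  | succ j ih =>
    intro hj
    push_cast at hj
    obtain ⟨C, R₁, hC, hR₁, h⟩ := ih (by linarith)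
    obtain ⟨C', R₂, hC', hR₂, h'⟩ := level hH h3 hφ (τ := ((j : ℝ) + 1 + 1) * η) (η := η) (by positivity) hη hj C
    refine ⟨C + C', max R₁ R₂, by linarith, hR₁.trans (le_max_left _ _), fun R₀ hR₀ => ?_⟩
    have hR1 : 1 ≤ R₀ := (hR₁.trans (le_max_left _ _)).trans hR₀
    have hR0 : 0 < R₀ := by linarith
    obtain ⟨W, hWc, hW0, hW, hWI⟩ := h R₀ ((le_max_left _ _).trans hR₀)
    obtain ⟨W', hWc', hW0', hW', hWI'⟩ := h' R₀ ((le_max_right _ _).trans hR₀)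
    refine ⟨fun R => W R + W' R, hWc.add hWc', fun R => add_nonneg (hW0 R) (hW0' R), ?_, ?_⟩
    · intro R hR c
      push_cast
      rcases hW R hR c with h1 | h1
      · by_cases h2 : C' * R₀ ^ (1 - ((j : ℝ) + 1 + 1) * η) < |cntc H c R - area H * R ^ 2|
        · right
          have e : 1 - ((j : ℝ) + 1 + 1) * η + η = 1 - ((j : ℝ) + 1) * η := by ring
          have h3 := hW' R hR c h2 (by rw [e]; exact h1)
          linarith [hW0 R]
        · left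
          push Not at h2
          refine h2.trans (mul_le_mul_of_nonneg_right (by linarith) (by positivity))
      · right
        linarith [hW0' R]
    · rw [integral_add (hWc.continuousOn.integrableOn_compact isCompact_Icc)
        (hWc'.continuousOn.integrableOn_compact isCompact_Icc)]
      linarith

/-- the eighth moment over the radii of the error at the worst centre -/
theorem wc8 {H : ℝ → ℝ} (hH : IsSupp H) (h3 : ContDiff ℝ 3 H) {ε : ℝ} (hε : 0 < ε) : ∃ C : ℝ, 1 ≤ C ∧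
    ∀ X : ℝ, 1 ≤ X → ∃ W : ℝ → ℝ, Continuous W ∧ (∀ R, 0 ≤ W R) ∧
      (∀ R ∈ Icc X (2 * X), ∀ c : ℝ × ℝ, |cntc H c R - area H * R ^ 2| ^ 8 ≤ W R) ∧
      ∫ R in Icc X (2 * X), W R ≤ C * X ^ (5 + ε) := by
  obtain ⟨φ, hφ⟩ := exists_bump
  obtain ⟨η, hη, hη8, hηε⟩ : ∃ η : ℝ, 0 < η ∧ η ≤ 1 / 8 ∧ 20 * η ≤ ε :=
    ⟨min (1 / 8) (ε / 20), by positivity, min_le_left _ _, by
      have := min_le_right (1 / 8) (ε / 20)
      linarith⟩
  obtain ⟨j, hj1, hj2⟩ : ∃ j : ℕ, 1 / 2 ≤ ((j : ℝ) + 1) * η ∧ ((j : ℝ) + 1) * η + η < 1 := by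
    refine ⟨⌊1 / (2 * η)⌋₊, ?_, ?_⟩
    · have h := Nat.lt_floor_add_one (1 / (2 * η))
      rw [div_lt_iff₀ (by positivity)] at h
      linarith
    · have h := Nat.floor_le (a := 1 / (2 * η)) (by positivity)
      rw [le_div_iff₀ (by positivity)] at h
      linarith
  obtain ⟨C, R₁, hC, hR₁, h⟩ := grid84 hH h3 hφ hη hη8 j hj2
  obtain ⟨C₂, hC₂, hsm⟩ := Pool.Agent.Helper11.AD.small_rad H (2 * R₁)
  refine ⟨C + C ^ 8 + C₂ ^ 8, by nlinarith [pow_nonneg (by linarith : (0 : ℝ) ≤ C) 8, pow_nonneg hC₂.le 8], ?_⟩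
  intro X hX
  have hX0 : 0 < X := by linarith
  have hc : ∀ a : ℝ, ∫ _ in Icc X (2 * X), a = X * a := fun a => by
    rw [setIntegral_const, Real.volume_real_Icc_of_le (by linarith), smul_eq_mul]
    ring
  rcases le_or_gt R₁ X with h1 | h1
  · obtain ⟨W, hWc, hW0, hW, hWI⟩ := h X h1
    refine ⟨fun R => W R + C ^ 8 * X ^ 4, hWc.add continuous_const, fun R => add_nonneg (hW0 R) (by positivity), ?_, ?_⟩
    · intro R hR c
      rcases hW R hR c with h2 | h2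
      · have h3 : C * X ^ (1 - ((j : ℝ) + 1) * η) ≤ C * X ^ (1 / 2 : ℝ) :=
          mul_le_mul_of_nonneg_left (Real.rpow_le_rpow_of_exponent_le hX (by linarith)) (by linarith)
        have h4 := pow_le_pow_left₀ (abs_nonneg _) (h2.trans h3) 8
        have h5 : (C * X ^ (1 / 2 : ℝ)) ^ 8 = C ^ 8 * X ^ 4 := by
          rw [mul_pow, ← Real.rpow_natCast (X ^ (1 / 2 : ℝ)) 8, ← Real.rpow_mul hX0.le]
          norm_num
        rw [h5] at h4
        linarith [hW0 R]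
      · have : 0 ≤ C ^ 8 * X ^ 4 := by positivity
        linarith
    · rw [integral_add (hWc.continuousOn.integrableOn_compact isCompact_Icc)
        (continuous_const.continuousOn.integrableOn_compact isCompact_Icc), hc]
      have h2 : X ^ (5 + 20 * η) ≤ X ^ (5 + ε) := Real.rpow_le_rpow_of_exponent_le hX (by linarith)
      have h3 : X ^ (5 : ℝ) ≤ X ^ (5 + ε) := Real.rpow_le_rpow_of_exponent_le hX (by linarith)
      have h4 : X * (C ^ 8 * X ^ 4) = C ^ 8 * X ^ (5 : ℝ) := by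
        have : X ^ (5 : ℝ) = X ^ (5 : ℕ) := by exact_mod_cast Real.rpow_natCast X 5
        rw [this]
        ring
      rw [h4]
      have h5 : C * X ^ (5 + 20 * η) ≤ C * X ^ (5 + ε) := mul_le_mul_of_nonneg_left h2 (by linarith)
      have h6 : C ^ 8 * X ^ (5 : ℝ) ≤ C ^ 8 * X ^ (5 + ε) := mul_le_mul_of_nonneg_left h3 (by positivity)
      have h7 : 0 ≤ C₂ ^ 8 * X ^ (5 + ε) := by positivity
      have h8 : (C + C ^ 8 + C₂ ^ 8) * X ^ (5 + ε) = C * X ^ (5 + ε) + C ^ 8 * X ^ (5 + ε) + C₂ ^ 8 * X ^ (5 + ε) := by ring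
      rw [h8]
      linarith
  · refine ⟨fun _ => C₂ ^ 8, continuous_const, fun _ => by positivity, ?_, ?_⟩
    · intro R hR c
      exact pow_le_pow_left₀ (abs_nonneg _) (hsm R (hX.trans hR.1) (hR.2.trans (by linarith)) c) 8
    · rw [hc]
      have h2 : X ≤ X ^ (5 + ε) := by
        calc X = X ^ (1 : ℝ) := (Real.rpow_one X).symm
          _ ≤ X ^ (5 + ε) := Real.rpow_le_rpow_of_exponent_le hX (by linarith)
      have h3 : C₂ ^ 8 * X ≤ C₂ ^ 8 * X ^ (5 + ε) := mul_le_mul_of_nonneg_left h2 (by positivity)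
      have h4 : 0 ≤ (C + C ^ 8) * X ^ (5 + ε) := by positivity
      have h5 : (C + C ^ 8 + C₂ ^ 8) * X ^ (5 + ε) = (C + C ^ 8) * X ^ (5 + ε) + C₂ ^ 8 * X ^ (5 + ε) := by ring
      rw [h5]
      linarith

end Pool.Agent.Helper92.CP
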