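import Pool.Agent.Helper92.GC.R0
import Pool.Agent.Helper22.AC.D3
import Pool.Agent.Helper22.AC.D6b

/-!
# CP-Wc1: the sixth moment of the largest value over all centres of a block

`blocksW`: `int_[R0, 2R0] sup_c |VKc_n(c, R)|^6 dR <= C R0^4 2^(-n+eps n) (1 + 8^n / R0)`. As in Helper60.SV.H2 (Jensen in the angle `alpha`), with the
inequality of Nikolskii `nik` in the centre: `sup_c |cs (blk n) a (ga H alpha) (c, R)|^6 <= 196 4^n int_Tq |cs (..) (c', R)|^6 dc'`.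
-/

open MeasureTheory Real Set Filter Topology

set_option autoImplicit false

namespace Pool.Agent.Helper92.CP

open Pool.Agent.Helper22.AE
open Pool.Agent.Helper22.AC
open Pool.Agent.Helper92.GC (tp Tq dt m6 S3 nik)

private theorem k0c84 {β : ℝ} (hβ : 0 < β) : Continuous (fun α => k0 β α) := by
  unfold k0
  exact continuous_const.div (by fun_prop) (fun α => (by positivity : (0 : ℝ) < sin α ^ 2 + β ^ 2).ne')

private theorem k0n84 {β : ℝ} (hβ : 0 < β) (α : ℝ) : 0 ≤ k0 β α := by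
  unfold k0
  positivity

private theorem young84 {p : ℕ} (hp : 1 ≤ p) {c g : ℝ} (hc : 0 ≤ c) (hg : 0 ≤ g) :
    ((p : ℝ) + 1) * c ^ p * g ≤ p * c ^ (p + 1) + g ^ (p + 1) := by
  rcases hc.eq_or_lt with rfl | hc'
  · rw [zero_pow (by omega), zero_pow (by omega)]
    have := pow_nonneg hg (p + 1)
    linarith
  · have h := one_add_mul_le_pow (a := g / c - 1) (by have : 0 ≤ g / c := div_nonneg hg hc; linarith) (p + 1)
    rw [show 1 + (g / c - 1) = g / c by ring, div_pow, le_div_iff₀ (by positivity)] at h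
    have e : (1 + ((p + 1 : ℕ) : ℝ) * (g / c - 1)) * c ^ (p + 1) =
        c ^ (p + 1) + (p + 1) * (c ^ p * g - c ^ (p + 1)) := by
      push_cast
      field_simp
      ring
    rw [e] at h
    linarith

private theorem jens84 {X : Type*} [MeasurableSpace X] {μ : Measure X} {p : ℕ} (hp : 1 ≤ p) {w g : X → ℝ}
    (hw : ∀ x, 0 ≤ w x) (hg : ∀ x, 0 ≤ g x) (i0 : Integrable w μ) (i1 : Integrable (fun x => w x * g x) μ)
    (i6 : Integrable (fun x => w x * g x ^ (p + 1)) μ) :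
    (∫ x, w x * g x ∂μ) ^ (p + 1) ≤ (∫ x, w x ∂μ) ^ p * ∫ x, w x * g x ^ (p + 1) ∂μ := by
  set W := ∫ x, w x ∂μ with hW
  set I := ∫ x, w x * g x ∂μ with hI
  set J := ∫ x, w x * g x ^ (p + 1) ∂μ with hJ
  have hW0 : 0 ≤ W := integral_nonneg hw
  have hI0 : 0 ≤ I := integral_nonneg fun x => mul_nonneg (hw x) (hg x)
  have hJ0 : 0 ≤ J := integral_nonneg fun x => mul_nonneg (hw x) (pow_nonneg (hg x) _)
  have key : ∀ c : ℝ, 0 ≤ c → ((p : ℝ) + 1) * c ^ p * I ≤ p * c ^ (p + 1) * W + J := by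
    intro c hc
    have h1 : ((p : ℝ) + 1) * c ^ p * I = ∫ x, ((p : ℝ) + 1) * c ^ p * (w x * g x) ∂μ := by
      rw [integral_const_mul]
    have h2 : p * c ^ (p + 1) * W + J = ∫ x, (p * c ^ (p + 1) * w x + w x * g x ^ (p + 1)) ∂μ := by
      rw [integral_add (i0.const_mul _) i6, integral_const_mul]
    rw [h1, h2]
    refine integral_mono (i1.const_mul _) ((i0.const_mul _).add i6) fun x => ?_
    have h3 := mul_le_mul_of_nonneg_left (young84 hp hc (hg x)) (hw x)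
    show ((p : ℝ) + 1) * c ^ p * (w x * g x) ≤ p * c ^ (p + 1) * w x + w x * g x ^ (p + 1)
    linarith [h3]
  rcases hW0.eq_or_lt with hz | hpos
  · have hI' : I = 0 := by
      by_contra hne
      have hIp : 0 < I := lt_of_le_of_ne hI0 (Ne.symm hne)
      set c := max 1 ((J + 1) / I) with hc
      have hc1 : 1 ≤ c := le_max_left _ _
      have hc2 : (J + 1) / I ≤ c := le_max_right _ _
      have h4 := key c (by linarith)
      rw [← hz] at h4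
      have h5 : c ≤ c ^ p := by
        calc c = c ^ 1 := (pow_one c).symm
          _ ≤ c ^ p := pow_le_pow_right₀ hc1 hp
      have h6 : J + 1 ≤ c * I := (div_le_iff₀ hIp).1 hc2
      have h7 : c * I ≤ c ^ p * I := mul_le_mul_of_nonneg_right h5 hI0
      have h8 : 0 ≤ (p : ℝ) * (c ^ p * I) := by positivity
      nlinarith
    rw [hI', ← hz, zero_pow (by omega), zero_pow (by omega)]
    simp
  · have h4 := key (I / W) (by positivity)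
    have h5 : I ^ (p + 1) / W ^ p ≤ J := by
      have e1 : ((p : ℝ) + 1) * (I / W) ^ p * I = (p + 1) * (I ^ (p + 1) / W ^ p) := by
        rw [div_pow, pow_succ]
        ring
      have e2 : p * (I / W) ^ (p + 1) * W = p * (I ^ (p + 1) / W ^ p) := by
        rw [div_pow, pow_succ W]
        field_simp
      rw [e1, e2] at h4
      linarith
    rw [div_le_iff₀ (by positivity)] at h5
    linarith [h5, mul_comm J (W ^ p)]

private theorem ga_cont84 {H : ℝ → ℝ} (hH : ContDiff ℝ 2 H) (t : ℝ) : Continuous fun α => ga H α t := by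
  unfold ga
  have h1 := hH.continuous
  have h2 : Continuous (deriv H) := hH.continuous_deriv (by norm_num)
  fun_prop

/-- the modulus of the sum with coefficients depending on `α` -/
private noncomputable def T84 (H : ℝ → ℝ) (n : ℕ) (a : ℝ → ℤ × ℤ → ℂ) (q : (ℝ × ℝ) × ℝ) (α : ℝ) : ℝ :=
  ‖cs (blk n) (a α) (ga H α) q‖

private theorem T84_nonneg (H : ℝ → ℝ) (n : ℕ) (a : ℝ → ℤ × ℤ → ℂ) (q : (ℝ × ℝ) × ℝ) (α : ℝ) :
    0 ≤ T84 H n a q α := norm_nonneg _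

private theorem T84_cont {H : ℝ → ℝ} (hH : ContDiff ℝ 2 H) (n : ℕ) {a : ℝ → ℤ × ℤ → ℂ}
    (ha : ∀ k, Continuous fun α => a α k) :
    Continuous fun z : ((ℝ × ℝ) × ℝ) × ℝ => T84 H n a z.1 z.2 := by
  unfold T84 cs Fk
  refine (continuous_finsetSum _ fun k _ => ?_).norm
  have h1 := ga_cont84 hH (tk k)
  have h2 : Continuous fun z : ((ℝ × ℝ) × ℝ) × ℝ => ga H z.2 (tk k) := h1.comp continuous_snd
  have h3 : Continuous fun z : ((ℝ × ℝ) × ℝ) × ℝ => a z.2 k := (ha k).comp continuous_snd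
  refine h3.mul (ee_cont.comp ?_)
  fun_prop

private theorem T84_le (H : ℝ → ℝ) (n : ℕ) {a : ℝ → ℤ × ℤ → ℂ} (ha : ∀ α k, ‖a α k‖ ≤ 1)
    (q : (ℝ × ℝ) × ℝ) (α : ℝ) : T84 H n a q α ≤ 25 * 4 ^ n := by
  unfold T84 cs
  refine (norm_sum_le _ _).trans (le_trans ?_ (blk_card n))
  have h : ∀ k ∈ blk n, ‖a α k * ee (-((k.1 : ℝ) * q.1.1 + (k.2 : ℝ) * q.1.2 + q.2 * Fk (ga H α) k))‖ ≤ 1 := by
    intro k _
    rw [norm_mul, ee_norm, mul_one]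
    exact ha α k
  refine (Finset.sum_le_card_nsmul _ _ _ h).trans ?_
  rw [nsmul_eq_mul, mul_one]

private def A84 (s : ℝ) : Set ℝ := Icc (-π) π ∩ {α | |sin α| ≤ s}

private theorem A84_compact (s : ℝ) : IsCompact (A84 s) :=
  isCompact_Icc.inter_right (isClosed_le (by fun_prop) continuous_const)

private theorem k0_Icc84 {β : ℝ} (hβ : 0 < β) : ∫ y in Icc (-π) π, k0 β y ≤ 20 := by
  have h7 : ∫ y in Icc (-π) π, k0 β y = ∫ y in (-π)..π, k0 β y := by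
    rw [intervalIntegral.integral_of_le (by linarith [pi_pos]), integral_Icc_eq_integral_Ioc]
  rw [h7]
  exact k0_int hβ

private theorem k0_A84 {β : ℝ} (hβ : 0 < β) (s : ℝ) : ∫ α in A84 s, k0 β α ≤ 20 := by
  refine le_trans ?_ (k0_Icc84 hβ)
  exact setIntegral_mono_set ((k0c84 hβ).continuousOn.integrableOn_compact isCompact_Icc)
    (ae_of_all _ (k0n84 hβ)) (LE.le.eventuallyLE inter_subset_left)

private theorem Tα_cont84 {H : ℝ → ℝ} (hH : ContDiff ℝ 2 H) (n : ℕ) {a : ℝ → ℤ × ℤ → ℂ}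
    (ha : ∀ k, Continuous fun α => a α k) (q : (ℝ × ℝ) × ℝ) : Continuous fun α => T84 H n a q α :=
  (T84_cont hH n ha).comp (Continuous.prodMk continuous_const continuous_id)

private theorem split84 {H : ℝ → ℝ} (hH : ContDiff ℝ 2 H) (n : ℕ) {a : ℝ → ℤ × ℤ → ℂ}
    (hc : ∀ k, Continuous fun α => a α k) (ha : ∀ α k, ‖a α k‖ ≤ 1) {β s : ℝ} (hβ : 0 < β) (hs : 0 < s)
    (q : (ℝ × ℝ) × ℝ) :
    ∫ α in (-π)..π, k0 β α * T84 H n a q α ≤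
      (∫ α in A84 s, k0 β α * T84 H n a q α) + β / s ^ 2 * (25 * 4 ^ n) * (2 * π) := by
  have fc : Continuous fun α => k0 β α * T84 H n a q α := (k0c84 hβ).mul (Tα_cont84 hH n hc q)
  have fint : IntegrableOn (fun α => k0 β α * T84 H n a q α) (Icc (-π) π) :=
    fc.continuousOn.integrableOn_compact isCompact_Icc
  have hm : MeasurableSet {α : ℝ | |sin α| ≤ s} :=
    (isClosed_le (by fun_prop) continuous_const).measurableSet
  rw [intervalIntegral.integral_of_le (by linarith [pi_pos]), ← integral_Icc_eq_integral_Ioc,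
    ← integral_inter_add_sdiff hm fint]
  refine add_le_add le_rfl ?_
  have h1 : ∀ α ∈ Icc (-π) π \ {α : ℝ | |sin α| ≤ s}, ‖k0 β α * T84 H n a q α‖ ≤ β / s ^ 2 * (25 * 4 ^ n) := by
    rintro α ⟨-, hα⟩
    have hα' : s < |sin α| := not_le.1 hα
    rw [Real.norm_eq_abs, abs_of_nonneg (mul_nonneg (k0n84 hβ α) (T84_nonneg _ _ _ _ _))]
    refine mul_le_mul ?_ (T84_le H n ha q α) (T84_nonneg _ _ _ _ _) (by positivity)
    unfold k0
    refine div_le_div_of_nonneg_left hβ.le (by positivity) ?_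
    have h2 : s ^ 2 ≤ sin α ^ 2 := by
      rw [← sq_abs (sin α)]
      exact pow_le_pow_left₀ hs.le hα'.le 2
    have h3 : 0 ≤ β ^ 2 := sq_nonneg _
    linarith
  have h4 := norm_setIntegral_le_of_norm_le_const (μ := volume)
    (lt_of_le_of_lt (measure_mono sdiff_subset) (isCompact_Icc (a := -π) (b := π)).measure_lt_top) h1
  refine (le_abs_self _).trans (h4.trans ?_)
  refine mul_le_mul_of_nonneg_left ?_ (by positivity)
  have h5 : volume.real (Icc (-π) π) = 2 * π := by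
    rw [Real.volume_real_Icc_of_le (by linarith [pi_pos])]
    ring
  rw [← h5]
  exact measureReal_mono sdiff_subset (isCompact_Icc.measure_lt_top.ne)

private theorem pow84 {x : Fin 3 → ℝ} {L E : ℝ} (hx : ∀ i, 0 ≤ x i) (hL : 0 ≤ L) (hE : 0 ≤ E) (p : ℕ) :
    (L * ∑ i, x i + E) ^ (p + 1) ≤ 6 ^ (p + 1) * (L ^ (p + 1) * ∑ i, x i ^ (p + 1) + E ^ (p + 1)) := by
  have hS : 0 ≤ ∑ i, x i := Finset.sum_nonneg fun i _ => hx i
  have h1 : (L * ∑ i, x i + E) ^ (p + 1) ≤ 2 ^ (p + 1 - 1) * ((L * ∑ i, x i) ^ (p + 1) + E ^ (p + 1)) :=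
    add_pow_le (mul_nonneg hL hS) hE (p + 1)
  have h2 := pow_sum_div_card_le_sum_pow (s := Finset.univ) (f := x) (fun i _ => hx i) p
  rw [Finset.card_univ, Fintype.card_fin, div_le_iff₀ (by positivity)] at h2
  push_cast at h2
  have h3 : 0 ≤ ∑ i, x i ^ (p + 1) := Finset.sum_nonneg fun i _ => pow_nonneg (hx i) _
  rw [Nat.add_sub_cancel] at h1
  have h4 : (L * ∑ i, x i) ^ (p + 1) ≤ L ^ (p + 1) * ((∑ i, x i ^ (p + 1)) * 3 ^ p) := by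
    rw [mul_pow]
    exact mul_le_mul_of_nonneg_left h2 (by positivity)
  have h5 : (2 : ℝ) ^ p * 3 ^ p ≤ 6 ^ (p + 1) := by
    rw [← mul_pow]
    norm_num
    exact pow_le_pow_right₀ (by norm_num) (by omega)
  have h6 : (2 : ℝ) ^ p ≤ 6 ^ (p + 1) := by
    calc (2 : ℝ) ^ p ≤ 6 ^ p := pow_le_pow_left₀ (by norm_num) (by norm_num) p
      _ ≤ 6 ^ (p + 1) := pow_le_pow_right₀ (by norm_num) (by omega)
  have h7 : 0 ≤ L ^ (p + 1) * ∑ i, x i ^ (p + 1) := by positivity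
  calc (L * ∑ i, x i + E) ^ (p + 1) ≤ 2 ^ p * ((L * ∑ i, x i) ^ (p + 1) + E ^ (p + 1)) := h1
    _ ≤ 2 ^ p * (L ^ (p + 1) * ((∑ i, x i ^ (p + 1)) * 3 ^ p) + E ^ (p + 1)) := by gcongr
    _ = (2 ^ p * 3 ^ p) * (L ^ (p + 1) * ∑ i, x i ^ (p + 1)) + 2 ^ p * E ^ (p + 1) := by ring
    _ ≤ 6 ^ (p + 1) * (L ^ (p + 1) * ∑ i, x i ^ (p + 1)) + 6 ^ (p + 1) * E ^ (p + 1) :=
      add_le_add (mul_le_mul_of_nonneg_right h5 h7) (mul_le_mul_of_nonneg_right h6 (by positivity))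
    _ = _ := by ring

private theorem fub84 {K : Set ((ℝ × ℝ) × ℝ)} (hK : IsCompact K) (s : ℝ) {F : ((ℝ × ℝ) × ℝ) × ℝ → ℝ}
    (hF : Continuous F) : ∫ q in K, ∫ α in A84 s, F (q, α) = ∫ α in A84 s, ∫ q in K, F (q, α) := by
  have h : Integrable F ((volume.restrict K).prod (volume.restrict (A84 s))) := by
    rw [Measure.prod_restrict, ← Measure.volume_eq_prod]
    exact hF.continuousOn.integrableOn_compact (hK.prod (A84_compact s))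
  exact integral_integral_swap h

private theorem fub84' {K : Set (ℝ × ℝ)} (hK : IsCompact K) (s : ℝ) {F : (ℝ × ℝ) × ℝ → ℝ}
    (hF : Continuous F) : ∫ q in K, ∫ α in A84 s, F (q, α) = ∫ α in A84 s, ∫ q in K, F (q, α) := by
  have h : Integrable F ((volume.restrict K).prod (volume.restrict (A84 s))) := by
    rw [Measure.prod_restrict, ← Measure.volume_eq_prod]
    exact hF.continuousOn.integrableOn_compact (hK.prod (A84_compact s))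
  exact integral_integral_swap h

/-- the part near the origin of the integral of a power -/
private noncomputable def J84 (H : ℝ → ℝ) (s β : ℝ) (n p : ℕ) (a : ℝ → ℤ × ℤ → ℂ) (q : (ℝ × ℝ) × ℝ) : ℝ :=
  ∫ α in A84 s, k0 β α * T84 H n a q α ^ (p + 1)

private theorem gpow84 {H : ℝ → ℝ} (hH : ContDiff ℝ 2 H) {s C₀ : ℝ} (hs : 0 < s) (hC₀ : 0 < C₀) {p : ℕ} (hp : 1 ≤ p) :
    ∃ D : ℝ, 1 ≤ D ∧ ∀ (n : ℕ) (L β : ℝ), 0 < β → 0 ≤ L → L * (β * 4 ^ n) ≤ C₀ →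
      ∀ b : Fin 3 → ℝ → ℤ × ℤ → ℂ, (∀ i k, Continuous fun α => b i α k) → (∀ i α k, ‖b i α k‖ ≤ 1) → ∀ q,
        (L * ∑ i, ∫ α in (-π)..π, k0 β α * T84 H n (b i) q α) ^ (p + 1) ≤
          D * (L ^ (p + 1) * ∑ i, J84 H s β n p (b i) q + 1) := by
  set E : ℝ := 150 * π * C₀ / s ^ 2 with hE
  have hE0 : 0 ≤ E := by positivity
  refine ⟨6 ^ (p + 1) * (20 ^ p + E ^ (p + 1) + 1), ?_, ?_⟩
  · have h1 : (1 : ℝ) ≤ 6 ^ (p + 1) := one_le_pow₀ (by norm_num)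
    have h2 : (0 : ℝ) ≤ 20 ^ p + E ^ (p + 1) := by positivity
    nlinarith
  intro n L β hβ hL hLβ b hbc hb1 q
  set x : Fin 3 → ℝ := fun i => ∫ α in A84 s, k0 β α * T84 H n (b i) q α with hx
  have hx0 : ∀ i, 0 ≤ x i := fun i => integral_nonneg fun α => mul_nonneg (k0n84 hβ α) (T84_nonneg _ _ _ _ _)
  have hJ0 : ∀ i, 0 ≤ J84 H s β n p (b i) q := fun i =>
    integral_nonneg fun α => mul_nonneg (k0n84 hβ α) (pow_nonneg (T84_nonneg _ _ _ _ _) _)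
  have hint : ∀ h : ℝ → ℝ, Continuous h → Integrable h (volume.restrict (A84 s)) := fun h hh =>
    hh.continuousOn.integrableOn_compact (A84_compact s)
  have h1 : L * ∑ i, ∫ α in (-π)..π, k0 β α * T84 H n (b i) q α ≤ L * ∑ i, x i + E := by
    have h2 : ∑ i, ∫ α in (-π)..π, k0 β α * T84 H n (b i) q α ≤
        ∑ i : Fin 3, (x i + β / s ^ 2 * (25 * 4 ^ n) * (2 * π)) :=
      Finset.sum_le_sum fun i _ => split84 hH n (hbc i) (hb1 i) hβ hs q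
    rw [Finset.sum_add_distrib, Finset.sum_const, Finset.card_univ, Fintype.card_fin] at h2
    have h3 : L * (3 • (β / s ^ 2 * (25 * 4 ^ n) * (2 * π))) ≤ E := by
      have e : L * (3 • (β / s ^ 2 * (25 * 4 ^ n) * (2 * π))) = 150 * π * (L * (β * 4 ^ n)) / s ^ 2 := by
        rw [nsmul_eq_mul]
        push_cast
        ring
      rw [e, hE]
      gcongr
    calc L * ∑ i, ∫ α in (-π)..π, k0 β α * T84 H n (b i) q α
        ≤ L * (∑ i, x i + 3 • (β / s ^ 2 * (25 * 4 ^ n) * (2 * π))) := mul_le_mul_of_nonneg_left h2 hL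
      _ ≤ _ := by rw [mul_add]; linarith
  have h0 : 0 ≤ L * ∑ i, ∫ α in (-π)..π, k0 β α * T84 H n (b i) q α :=
    mul_nonneg hL (Finset.sum_nonneg fun i _ => intervalIntegral.integral_nonneg (by linarith [pi_pos])
      fun α _ => mul_nonneg (k0n84 hβ α) (T84_nonneg _ _ _ _ _))
  have h4 : ∀ i, x i ^ (p + 1) ≤ 20 ^ p * J84 H s β n p (b i) q := by
    intro i
    have hT := Tα_cont84 hH n (hbc i) q
    have h5 := jens84 (μ := volume.restrict (A84 s)) hp (w := fun α => k0 β α) (g := fun α => T84 H n (b i) q α)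
      (k0n84 hβ) (fun α => T84_nonneg _ _ _ _ _) (hint _ (k0c84 hβ)) (hint _ ((k0c84 hβ).mul hT))
      (hint _ ((k0c84 hβ).mul (hT.pow _)))
    refine h5.trans (mul_le_mul_of_nonneg_right ?_ (hJ0 i))
    exact pow_le_pow_left₀ (integral_nonneg (k0n84 hβ)) (k0_A84 hβ s) p
  have h6 : ∑ i, x i ^ (p + 1) ≤ 20 ^ p * ∑ i, J84 H s β n p (b i) q := by
    rw [Finset.mul_sum]
    exact Finset.sum_le_sum fun i _ => h4 i
  have hS0 : 0 ≤ ∑ i, J84 H s β n p (b i) q := Finset.sum_nonneg fun i _ => hJ0 i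
  have hLp : 0 ≤ L ^ (p + 1) := pow_nonneg hL _
  calc (L * ∑ i, ∫ α in (-π)..π, k0 β α * T84 H n (b i) q α) ^ (p + 1)
      ≤ (L * ∑ i, x i + E) ^ (p + 1) := pow_le_pow_left₀ h0 h1 _
    _ ≤ 6 ^ (p + 1) * (L ^ (p + 1) * ∑ i, x i ^ (p + 1) + E ^ (p + 1)) := pow84 hx0 hL hE0 p
    _ ≤ 6 ^ (p + 1) * (L ^ (p + 1) * (20 ^ p * ∑ i, J84 H s β n p (b i) q) + E ^ (p + 1)) := by gcongr
    _ ≤ 6 ^ (p + 1) * ((20 ^ p + E ^ (p + 1) + 1) * (L ^ (p + 1) * ∑ i, J84 H s β n p (b i) q + 1)) := by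
      refine mul_le_mul_of_nonneg_left ?_ (by positivity)
      have h7 : 0 ≤ L ^ (p + 1) * ∑ i, J84 H s β n p (b i) q := mul_nonneg hLp hS0
      have h8 : 0 ≤ E ^ (p + 1) := pow_nonneg hE0 _
      have h9 : (0 : ℝ) ≤ 20 ^ p := by positivity
      nlinarith [mul_nonneg h8 h7]
    _ = _ := by ring

/-- integral of `D (λ ∑ i, f i + 1)` -/
private theorem lin84 {X : Type*} [MeasurableSpace X] {μ : Measure X} {f : Fin 3 → X → ℝ} {D l B V : ℝ} (hD : 0 ≤ D)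
    (hl : 0 ≤ l) (hf : ∀ i, Integrable (f i) μ) (h1 : Integrable (fun _ : X => (1 : ℝ)) μ)
    (hV : ∫ _, (1 : ℝ) ∂μ = V) (hB : ∀ i, ∫ x, f i x ∂μ ≤ B) :
    ∫ x, D * (l * ∑ i, f i x + 1) ∂μ ≤ D * (l * (3 * B) + V) := by
  have h8 : Integrable (fun x => l * ∑ i, f i x) μ := (integrable_finsetSum _ fun i _ => hf i).const_mul l
  rw [integral_const_mul, integral_add h8 h1, integral_const_mul, integral_finsetSum _ fun i _ => hf i, hV]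
  refine mul_le_mul_of_nonneg_left (add_le_add (mul_le_mul_of_nonneg_left ?_ hl) le_rfl) hD
  have h10 : ∑ i, ∫ x, f i x ∂μ ≤ ∑ _i : Fin 3, B := Finset.sum_le_sum fun i _ => hB i
  rw [Finset.sum_const, Finset.card_univ, Fintype.card_fin, nsmul_eq_mul] at h10
  exact_mod_cast h10


private theorem s3_card84 {S : Finset (ℤ × ℤ)} {X Y : ℝ} (hX : 1 ≤ X) (hY : 1 ≤ Y)
    (h : ∀ p ∈ S, |(p.1 : ℝ)| ≤ X ∧ |(p.2 : ℝ)| ≤ Y) : ((S3 S).card : ℝ) ≤ 49 * (X * Y) := by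
  have key : ∀ (Z : ℝ) (a b c : ℤ), |(a : ℝ)| ≤ Z → |(b : ℝ)| ≤ Z → |(c : ℝ)| ≤ Z →
      a + b + c ∈ Finset.Icc (-⌊3 * Z⌋) ⌊3 * Z⌋ := by
    intro Z a b c ha hb hc
    rw [abs_le] at ha hb hc
    rw [Finset.mem_Icc]
    constructor
    · rw [neg_le, Int.le_floor]
      push_cast
      linarith [ha.1, hb.1, hc.1]
    · rw [Int.le_floor]
      push_cast
      linarith [ha.2, hb.2, hc.2]
  have hsub : S3 S ⊆ Finset.Icc (-⌊3 * X⌋) ⌊3 * X⌋ ×ˢ Finset.Icc (-⌊3 * Y⌋) ⌊3 * Y⌋ := by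
    intro l hl
    unfold S3 at hl
    rw [Finset.mem_image] at hl
    obtain ⟨k, hk, rfl⟩ := hl
    rw [Finset.mem_product, Finset.mem_product] at hk
    obtain ⟨hk1, hk2, hk3⟩ := hk
    rw [Finset.mem_product]
    exact ⟨key X _ _ _ (h _ hk1).1 (h _ hk2).1 (h _ hk3).1, key Y _ _ _ (h _ hk1).2 (h _ hk2).2 (h _ hk3).2⟩
  have hcard : ∀ Z : ℝ, 1 ≤ Z → ((Finset.Icc (-⌊3 * Z⌋) ⌊3 * Z⌋).card : ℝ) ≤ 7 * Z := by
    intro Z hZ
    rw [Int.card_Icc]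
    have h0 : 0 ≤ ⌊3 * Z⌋ := Int.floor_nonneg.mpr (by linarith)
    have h1 : ((⌊3 * Z⌋ + 1 - -⌊3 * Z⌋).toNat : ℤ) = ⌊3 * Z⌋ + 1 - -⌊3 * Z⌋ := Int.toNat_of_nonneg (by linarith)
    have h2 : (((⌊3 * Z⌋ + 1 - -⌊3 * Z⌋).toNat : ℤ) : ℝ) = ((⌊3 * Z⌋ + 1 - -⌊3 * Z⌋ : ℤ) : ℝ) := by rw [h1]
    have h3 := Int.floor_le (3 * Z)
    have h4 : (((⌊3 * Z⌋ + 1 - -⌊3 * Z⌋).toNat : ℕ) : ℝ) = 2 * (⌊3 * Z⌋ : ℝ) + 1 := by
      have h5 : (((⌊3 * Z⌋ + 1 - -⌊3 * Z⌋).toNat : ℕ) : ℝ) = (((⌊3 * Z⌋ + 1 - -⌊3 * Z⌋).toNat : ℤ) : ℝ) := by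
        push_cast
        rfl
      rw [h5, h2]
      push_cast
      ring
    rw [h4]
    linarith
  have h1 := Finset.card_le_card hsub
  rw [Finset.card_product] at h1
  have h2 : ((S3 S).card : ℝ) ≤ ((Finset.Icc (-⌊3 * X⌋) ⌊3 * X⌋).card : ℝ) * ((Finset.Icc (-⌊3 * Y⌋) ⌊3 * Y⌋).card : ℝ) := by
    exact_mod_cast h1
  have h3 := mul_le_mul (hcard X hX) (hcard Y hY) (Nat.cast_nonneg _) (by linarith)
  linarith

private theorem blk84 {n : ℕ} {k : ℤ × ℤ} (hk : k ∈ blk n) :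
    |(k.1 : ℝ)| ≤ 2 ^ (n + 1) ∧ |(k.2 : ℝ)| ≤ 2 ^ (n + 1) := by
  unfold blk box at hk
  rw [Finset.mem_filter, Finset.mem_product, Finset.mem_Icc, Finset.mem_Icc] at hk
  obtain ⟨⟨⟨h1, h2⟩, h3, h4⟩, -⟩ := hk
  have e : (((2 ^ (n + 1) : ℕ) : ℤ) : ℝ) = 2 ^ (n + 1) := by push_cast; ring
  have g1 : (-(((2 ^ (n + 1) : ℕ) : ℤ) : ℝ)) ≤ (k.1 : ℝ) := by exact_mod_cast h1
  have g2 : (k.1 : ℝ) ≤ (((2 ^ (n + 1) : ℕ) : ℤ) : ℝ) := by exact_mod_cast h2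
  have g3 : (-(((2 ^ (n + 1) : ℕ) : ℤ) : ℝ)) ≤ (k.2 : ℝ) := by exact_mod_cast h3
  have g4 : (k.2 : ℝ) ≤ (((2 ^ (n + 1) : ℕ) : ℤ) : ℝ) := by exact_mod_cast h4
  rw [e] at g1 g2 g3 g4
  exact ⟨abs_le.2 ⟨g1, g2⟩, abs_le.2 ⟨g3, g4⟩⟩

/-- the value at one centre against the mean over all centres -/
theorem nik_cs (n : ℕ) (a : ℤ × ℤ → ℂ) (γ : ℝ → ℝ) (R : ℝ) (c : ℝ × ℝ) :
    ‖cs (blk n) a γ (c, R)‖ ^ 6 ≤
      196 * 4 ^ n * ∫ c' in Icc (0 : ℝ) 1 ×ˢ Icc (0 : ℝ) 1, ‖cs (blk n) a γ (c', R)‖ ^ 6 := by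
  have e : ∀ c : ℝ × ℝ, ‖cs (blk n) a γ (c, R)‖ =
      ‖tp (blk n) (fun k => (starRingEnd ℂ) (a k) * ee (R * Fk γ k)) c‖ := by
    intro c
    rw [← Complex.norm_conj (cs (blk n) a γ (c, R))]
    congr 1
    unfold cs tp dt
    rw [map_sum]
    refine Finset.sum_congr rfl fun k _ => ?_
    rw [map_mul, mul_assoc]
    congr 1
    rw [← ee_neg, ← ee_add]
    congr 1
    ring
  have h := nik (blk n) (fun k => (starRingEnd ℂ) (a k) * ee (R * Fk γ k)) c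
  have h1 := s3_card84 (S := blk n) (X := 2 ^ (n + 1)) (Y := 2 ^ (n + 1)) (one_le_pow₀ (by norm_num))
    (one_le_pow₀ (by norm_num)) fun p hp => blk84 hp
  have h2 : (49 : ℝ) * (2 ^ (n + 1) * 2 ^ (n + 1)) = 196 * 4 ^ n := by
    have : (4 : ℝ) ^ n = 2 ^ n * 2 ^ n := by rw [← mul_pow]; norm_num
    rw [this, pow_succ]
    ring
  rw [h2] at h1
  have h3 : m6 (blk n) (fun k => (starRingEnd ℂ) (a k) * ee (R * Fk γ k)) =
      ∫ c' in Icc (0 : ℝ) 1 ×ˢ Icc (0 : ℝ) 1, ‖cs (blk n) a γ (c', R)‖ ^ 6 := by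
    unfold m6 Tq
    refine integral_congr_ae (Eventually.of_forall fun c' => ?_)
    simp only
    rw [e c']
  rw [← h3, e c]
  exact h.trans (mul_le_mul_of_nonneg_right h1 (by
    unfold m6
    exact integral_nonneg fun _ => by positivity))

private theorem fubr84 {K : Set ℝ} (hK : IsCompact K) (s : ℝ) {F : ℝ × ℝ → ℝ}
    (hF : Continuous F) : ∫ q in K, ∫ α in A84 s, F (q, α) = ∫ α in A84 s, ∫ q in K, F (q, α) := by
  have h : Integrable F ((volume.restrict K).prod (volume.restrict (A84 s))) := by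
    rw [Measure.prod_restrict, ← Measure.volume_eq_prod]
    exact hF.continuousOn.integrableOn_compact (hK.prod (A84_compact s))
  exact integral_integral_swap h

private theorem maxw84 {k : ℝ → ℝ} (hk : Continuous k) (hk0 : ∀ α, 0 ≤ k α) {F : ((ℝ × ℝ) × ℝ) × ℝ → ℝ}
    (hF : Continuous F) (s R₀ : ℝ) {C : ℝ} (hC : 0 ≤ C) :
    Continuous (fun r : ℝ => ∫ α in A84 s, k α * (C * ∫ c in Icc (0 : ℝ) 1 ×ˢ Icc (0 : ℝ) 1, F ((c, r), α))) ∧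
      (∀ r : ℝ, Continuous fun α => k α * (C * ∫ c in Icc (0 : ℝ) 1 ×ˢ Icc (0 : ℝ) 1, F ((c, r), α))) ∧
      ∀ B : ℝ, (∀ α ∈ A84 s, ∫ q in (Icc (0 : ℝ) 1 ×ˢ Icc (0 : ℝ) 1) ×ˢ Icc R₀ (2 * R₀), F (q, α) ≤ B) →
        ∫ r in Icc R₀ (2 * R₀), ∫ α in A84 s, k α * (C * ∫ c in Icc (0 : ℝ) 1 ×ˢ Icc (0 : ℝ) 1, F ((c, r), α)) ≤
          (∫ α in A84 s, k α) * (C * B) := by
  have hTc : IsCompact (Icc (0 : ℝ) 1 ×ˢ Icc (0 : ℝ) 1) := isCompact_Icc.prod isCompact_Icc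
  have hPc : Continuous fun z : ℝ × ℝ => k z.2 * (C * ∫ c in Icc (0 : ℝ) 1 ×ˢ Icc (0 : ℝ) 1, F ((c, z.1), z.2)) := by
    have h1 : Continuous fun z : ℝ × ℝ => ∫ c in Icc (0 : ℝ) 1 ×ˢ Icc (0 : ℝ) 1, F ((c, z.1), z.2) := by
      refine continuous_parametric_integral_of_continuous
        (f := fun (z : ℝ × ℝ) (c : ℝ × ℝ) => F ((c, z.1), z.2)) ?_ hTc
      have h2 : Continuous fun w : (ℝ × ℝ) × (ℝ × ℝ) => (((w.2, w.1.1), w.1.2) : ((ℝ × ℝ) × ℝ) × ℝ) := by fun_prop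
      exact hF.comp h2
    exact (hk.comp continuous_snd).mul (continuous_const.mul h1)
  refine ⟨continuous_parametric_integral_of_continuous
    (f := fun (r : ℝ) (α : ℝ) => k α * (C * ∫ c in Icc (0 : ℝ) 1 ×ˢ Icc (0 : ℝ) 1, F ((c, r), α))) hPc (A84_compact s),
    fun r => hPc.comp (Continuous.prodMk continuous_const continuous_id), ?_⟩
  intro B hB
  rw [fubr84 isCompact_Icc s hPc]
  have h2 : ∀ α ∈ A84 s, ∫ r in Icc R₀ (2 * R₀), k α * (C * ∫ c in Icc (0 : ℝ) 1 ×ˢ Icc (0 : ℝ) 1, F ((c, r), α)) ≤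
      k α * (C * B) := by
    intro α hα
    rw [integral_const_mul, integral_const_mul]
    refine mul_le_mul_of_nonneg_left (mul_le_mul_of_nonneg_left ?_ hC) (hk0 α)
    have h3 : Integrable (fun q => F (q, α)) ((volume.restrict (Icc (0 : ℝ) 1 ×ˢ Icc (0 : ℝ) 1)).prod
        (volume.restrict (Icc R₀ (2 * R₀)))) := by
      rw [Measure.prod_restrict, ← Measure.volume_eq_prod]
      exact (hF.comp (Continuous.prodMk continuous_id continuous_const)).continuousOn.integrableOn_compact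
        (hTc.prod isCompact_Icc)
    have h4 := integral_prod_symm (fun q => F (q, α)) h3
    rw [Measure.prod_restrict, ← Measure.volume_eq_prod] at h4
    rw [← h4]
    exact hB α hα
  have h6 : Continuous fun α => ∫ r in Icc R₀ (2 * R₀),
      k α * (C * ∫ c in Icc (0 : ℝ) 1 ×ˢ Icc (0 : ℝ) 1, F ((c, r), α)) :=
    continuous_parametric_integral_of_continuous
      (f := fun (α : ℝ) (r : ℝ) => k α * (C * ∫ c in Icc (0 : ℝ) 1 ×ˢ Icc (0 : ℝ) 1, F ((c, r), α)))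
      (hPc.comp continuous_swap) isCompact_Icc
  have hint : ∀ h : ℝ → ℝ, Continuous h → Integrable h (volume.restrict (A84 s)) := fun h hh =>
    hh.continuousOn.integrableOn_compact (A84_compact s)
  refine (setIntegral_mono_on (hint _ h6) (hint _ (hk.mul continuous_const)) (A84_compact s).measurableSet
    h2).trans (le_of_eq ?_)
  exact integral_mul_const _ _

private theorem corew84 {H : ℝ → ℝ} (hH : ContDiff ℝ 2 H) {s C₀ : ℝ} (hs : 0 < s) (hC₀ : 0 < C₀) :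
    ∃ D : ℝ, 1 ≤ D ∧ ∀ R₀ : ℝ, 1 ≤ R₀ → ∀ (n : ℕ) (L β : ℝ), 0 < β → 0 ≤ L →
      L * (β * 4 ^ n) ≤ C₀ → ∀ b : Fin 3 → ℝ → ℤ × ℤ → ℂ, (∀ i k, Continuous fun α => b i α k) →
      (∀ i α k, ‖b i α k‖ ≤ 1) → ∃ S : ℝ → ℝ, Continuous S ∧ (∀ R, 0 ≤ S R) ∧
        (∀ c, ∀ R, (L * ∑ i, ∫ α in (-π)..π, k0 β α * T84 H n (b i) (c, R) α) ^ 6 ≤ S R) ∧
        ∀ B : ℝ, 0 ≤ B → (∀ α, |sin α| ≤ s → ∀ a : ℤ × ℤ → ℂ, (∀ k, ‖a k‖ ≤ 1) →
          ∫ q in (Icc (0 : ℝ) 1 ×ˢ Icc (0 : ℝ) 1) ×ˢ Icc R₀ (2 * R₀), ‖cs (blk n) a (ga H α) q‖ ^ 6 ≤ B) →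
          ∫ R in Icc R₀ (2 * R₀), S R ≤ D * (L ^ 6 * 4 ^ n * B + R₀) := by
  obtain ⟨D, hD, hg⟩ := gpow84 hH hs hC₀ (p := 5) (by norm_num)
  refine ⟨D * 11760, by nlinarith, ?_⟩
  intro R₀ hR₀ n L β hβ hL hLβ b hbc hb1
  have hgq := hg n L β hβ hL hLβ b hbc hb1
  have hint : ∀ h : ℝ → ℝ, Continuous h → Integrable h (volume.restrict (A84 s)) := fun h hh =>
    hh.continuousOn.integrableOn_compact (A84_compact s)
  have hkc := k0c84 hβ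
  have hk0 := k0n84 hβ
  have hTb : ∀ i, Continuous fun z : ((ℝ × ℝ) × ℝ) × ℝ => T84 H n (b i) z.1 z.2 ^ 6 := fun i =>
    (T84_cont hH n (hbc i)).pow _
  have hCn : (0 : ℝ) ≤ 196 * 4 ^ n := by positivity
  have hmax := fun i => maxw84 hkc hk0 (hTb i) s R₀ hCn
  have hLp : 0 ≤ L ^ 6 := pow_nonneg hL _
  have hD0 : 0 ≤ D := by linarith
  have hI0 : ∀ R i, 0 ≤ ∫ α in A84 s, k0 β α * (196 * 4 ^ n * ∫ c in Icc (0 : ℝ) 1 ×ˢ Icc (0 : ℝ) 1,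
      T84 H n (b i) (c, R) α ^ 6) := fun R i =>
    integral_nonneg fun α => mul_nonneg (hk0 α) (mul_nonneg hCn (integral_nonneg fun c =>
      pow_nonneg (T84_nonneg _ _ _ _ _) _))
  refine ⟨fun R => D * (L ^ 6 * ∑ i, (∫ α in A84 s, k0 β α * (196 * 4 ^ n * ∫ c in Icc (0 : ℝ) 1 ×ˢ Icc (0 : ℝ) 1,
    T84 H n (b i) (c, R) α ^ 6)) + 1), ?_, ?_, ?_, ?_⟩
  · exact continuous_const.mul ((continuous_const.mul (continuous_finsetSum _ fun i _ => (hmax i).1)).add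
      continuous_const)
  · intro R
    have h1 := Finset.sum_nonneg fun i (_ : i ∈ (Finset.univ : Finset (Fin 3))) => hI0 R i
    have h2 := mul_nonneg hLp h1
    exact mul_nonneg hD0 (by linarith)
  · intro c R
    refine (hgq (c, R)).trans ?_
    refine mul_le_mul_of_nonneg_left (add_le_add (mul_le_mul_of_nonneg_left ?_ hLp) le_rfl) hD0
    refine Finset.sum_le_sum fun i _ => ?_
    unfold J84
    refine integral_mono (hint _ (hkc.mul ((Tα_cont84 hH n (hbc i) (c, R)).pow _)))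
      (hint _ ((hmax i).2.1 R)) fun α => ?_
    have h3 := nik_cs n (b i α) (ga H α) R c
    exact mul_le_mul_of_nonneg_left h3 (hk0 α)
  · intro B hB hBq
    have h1 : ∀ i, ∫ R in Icc R₀ (2 * R₀), (∫ α in A84 s, k0 β α * (196 * 4 ^ n *
        ∫ c in Icc (0 : ℝ) 1 ×ˢ Icc (0 : ℝ) 1, T84 H n (b i) (c, R) α ^ 6)) ≤ 20 * (196 * 4 ^ n * B) := by
      intro i
      refine ((hmax i).2.2 B fun α hα => ?_).trans
        (mul_le_mul_of_nonneg_right (k0_A84 hβ s) (by positivity))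
      exact hBq α hα.2 (b i α) (hb1 i α)
    have hV : ∫ _ in Icc R₀ (2 * R₀), (1 : ℝ) = R₀ := by
      rw [setIntegral_const, Real.volume_real_Icc_of_le (by linarith), smul_eq_mul]
      ring
    have h7 := lin84 (μ := volume.restrict (Icc R₀ (2 * R₀))) hD0 hLp
      (fun i => ((hmax i).1).continuousOn.integrableOn_compact isCompact_Icc)
      (continuous_const.continuousOn.integrableOn_compact isCompact_Icc) hV h1
    refine h7.trans ?_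
    have h12 : 0 ≤ L ^ 6 * 4 ^ n * B := by positivity
    have h13 : D * (L ^ 6 * (3 * (20 * (196 * 4 ^ n * B))) + R₀) =
        D * (11760 * (L ^ 6 * 4 ^ n * B) + R₀) := by ring
    rw [h13, mul_assoc D]
    refine mul_le_mul_of_nonneg_left ?_ hD0
    linarith

private theorem low84 {R N ε : ℝ} (hN : 1 ≤ N) (hR : N ≤ R) (hε : 0 < ε) :
    R ≤ R ^ 4 * N ^ (-1 + ε) * (1 + N ^ 3 / R) := by
  have hN0 : 0 < N := by linarith
  have hR1 : 1 ≤ R := hN.trans hR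
  have hR0 : 0 < R := by linarith
  have h3 : 1 / N ≤ N ^ (-1 + ε) := by
    have : N ^ (-1 : ℝ) ≤ N ^ (-1 + ε) := Real.rpow_le_rpow_of_exponent_le hN (by linarith)
    rw [Real.rpow_neg hN0.le, Real.rpow_one] at this
    rw [one_div]
    exact this
  have hW : 1 ≤ 1 + N ^ 3 / R := by
    have : 0 ≤ N ^ 3 / R := by positivity
    linarith
  have h4 : R ≤ R ^ 4 * (1 / N) := by
    rw [mul_one_div, le_div_iff₀ hN0]
    calc R * N ≤ R * R := mul_le_mul_of_nonneg_left hR hR0.le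
      _ = R ^ 2 := by ring
      _ ≤ R ^ 4 := pow_le_pow_right₀ hR1 (by norm_num)
  have h5 : R ≤ R ^ 4 * N ^ (-1 + ε) := h4.trans (mul_le_mul_of_nonneg_left h3 (by positivity))
  have h6 : 0 ≤ R ^ 4 * N ^ (-1 + ε) := by positivity
  nlinarith

private theorem pww84 {C₀ R₀ N ε : ℝ} (hR : 0 < R₀) (hN : 0 < N) :
    (C₀ * R₀ ^ (1 / 2 : ℝ) * N ^ (-(3 / 2) : ℝ)) ^ 6 = C₀ ^ 6 * R₀ ^ 3 * N ^ (-9 : ℝ) ∧
      C₀ * R₀ ^ (1 / 2 : ℝ) * N ^ (-(3 / 2) : ℝ) * ((R₀ * N) ^ (-(1 / 2) : ℝ) * N ^ 2) = C₀ ∧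
      N ^ (-(3 / 2) : ℝ) * N ^ 2 = N ^ (1 / 2 : ℝ) ∧
      N ^ (-9 : ℝ) * N ^ 2 * N ^ (6 + ε) = N ^ (-1 + ε) := by
  have e1 : ∀ (x : ℝ) (y : ℝ) (k : ℕ), 0 < x → (x ^ y) ^ k = x ^ (y * k) := fun x y k hx => by
    rw [← Real.rpow_natCast, ← Real.rpow_mul hx.le]
  refine ⟨?_, ?_, ?_, ?_⟩
  · rw [mul_pow, mul_pow, e1 _ _ _ hR, e1 _ _ _ hN]
    norm_num
  · rw [Real.mul_rpow hR.le hN.le, ← Real.rpow_natCast N 2]
    have h1 : R₀ ^ (1 / 2 : ℝ) * R₀ ^ (-(1 / 2) : ℝ) = 1 := by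
      rw [← Real.rpow_add hR]; norm_num
    have h2 : N ^ (-(3 / 2) : ℝ) * N ^ (-(1 / 2) : ℝ) * N ^ ((2 : ℕ) : ℝ) = 1 := by
      rw [← Real.rpow_add hN, ← Real.rpow_add hN]; norm_num
    calc C₀ * R₀ ^ (1 / 2 : ℝ) * N ^ (-(3 / 2) : ℝ) * (R₀ ^ (-(1 / 2) : ℝ) * N ^ (-(1 / 2) : ℝ) * N ^ ((2 : ℕ) : ℝ))
        = C₀ * (R₀ ^ (1 / 2 : ℝ) * R₀ ^ (-(1 / 2) : ℝ)) *
          (N ^ (-(3 / 2) : ℝ) * N ^ (-(1 / 2) : ℝ) * N ^ ((2 : ℕ) : ℝ)) := by ring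
      _ = C₀ := by rw [h1, h2]; ring
  · rw [← Real.rpow_natCast N 2, ← Real.rpow_add hN]
    norm_num
  · rw [← Real.rpow_natCast N 2, ← Real.rpow_add hN, ← Real.rpow_add hN]
    congr 1
    push_cast
    ring

/-- the sixth moment over the radii of the largest value of a block over all centres -/
theorem blocksW {H : ℝ → ℝ} (hH : IsSupp H) (h3 : ContDiff ℝ 3 H) {φ : ℝ × ℝ → ℝ} (hφ : IsBump φ) {ε : ℝ}
    (hε : 0 < ε) : ∃ C : ℝ, 1 ≤ C ∧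
    ∀ R₀ : ℝ, 1 ≤ R₀ → ∀ n : ℕ, (2 : ℝ) ^ n ≤ R₀ → ∀ δ ∈ Icc (0 : ℝ) 1, ∀ σ : ℝ, (σ = 1 ∨ σ = -1) →
      ∃ S : ℝ → ℝ, Continuous S ∧ (∀ R, 0 ≤ S R) ∧
        (∀ R ∈ Icc R₀ (2 * R₀), IsSupp (fun θ => R * H θ + σ * δ) → ∀ c : ℝ × ℝ,
          ‖VKc φ (fun θ => R * H θ + σ * δ) δ n c‖ ^ 6 ≤ S R ∧
          ‖VKc φ (fun θ => R * H θ + σ * δ) δ n c‖ ≤ C * R₀ ^ (1 / 2 : ℝ) * (2 : ℝ) ^ ((n : ℝ) / 2)) ∧
        ∫ R in Icc R₀ (2 * R₀), S R ≤ C * R₀ ^ 4 * ((2 : ℝ) ^ n) ^ (-1 + ε) * (1 + 8 ^ n / R₀) := by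
  obtain ⟨C₀, hC₀, hV⟩ := VKc_le hH hφ
  obtain ⟨C₁, hC₁, hV1⟩ := VKc_trivial hH hφ
  obtain ⟨s₁, K₁, hs₁, -, hK₁, h6⟩ := sixth_ga hH h3 hε
  obtain ⟨D₁, hD₁, g1⟩ := corew84 hH.smooth hs₁ hC₀
  have hD₁0 : 0 ≤ D₁ := by linarith
  set E₁ := D₁ * (C₀ ^ 6 * K₁ + 1) with hE₁
  have hE₁0 : 0 ≤ E₁ := by positivity
  refine ⟨1 + C₁ + E₁, by linarith, ?_⟩
  intro R₀ hR₀ n hn δ hδ σ hσ
  obtain ⟨b, hbc, hb1, hVb⟩ := hV R₀ hR₀ n δ hδ σ hσ
  have hR0 : 0 < R₀ := by linarith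
  obtain ⟨N, hN⟩ : ∃ N : ℝ, N = 2 ^ n := ⟨_, rfl⟩
  have hN1 : 1 ≤ N := by rw [hN]; exact one_le_pow₀ (by norm_num)
  have hN0 : 0 < N := by linarith
  have h4n : (4 : ℝ) ^ n = N ^ 2 := by rw [hN, ← pow_mul, mul_comm, pow_mul]; norm_num
  have h8n : (8 : ℝ) ^ n = N ^ 3 := by rw [hN, ← pow_mul, mul_comm, pow_mul]; norm_num
  have h2n : (2 : ℝ) ^ (-(3 / 2 : ℝ) * n) = N ^ (-(3 / 2) : ℝ) := by
    rw [hN, ← Real.rpow_natCast 2 n, ← Real.rpow_mul (by norm_num)]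
    congr 1
    ring
  rw [← hN] at hn
  obtain ⟨p6, pL, pN, x1⟩ := pww84 (C₀ := C₀) (ε := ε) hR0 hN0
  set L : ℝ := C₀ * R₀ ^ (1 / 2 : ℝ) * N ^ (-(3 / 2) : ℝ) with hL
  obtain ⟨β, hβd⟩ : ∃ β : ℝ, β = (R₀ * N) ^ (-(1 / 2) : ℝ) := ⟨_, rfl⟩
  have hβ : 0 < β := by rw [hβd]; positivity
  have hL0 : 0 ≤ L := by positivity
  rw [← hβd] at pL
  have hLβ : L * (β * 4 ^ n) ≤ C₀ := by rw [h4n, pL]
  obtain ⟨S, hSc, hS0, hS, hIS⟩ := g1 R₀ hR₀ n L β hβ hL0 hLβ b hbc hb1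
  have y1 := low84 hN1 hn hε
  have h2R : R₀ + R₀ = 2 * R₀ := by ring
  refine ⟨S, hSc, hS0, ?_, ?_⟩
  · intro R hR hs c
    constructor
    · have h := hVb R hR hs c
      rw [h2n, ← hN, ← hβd] at h
      refine le_trans ?_ (hS c R)
      exact pow_le_pow_left₀ (norm_nonneg _) h 6
    · refine (hV1 R₀ hR₀ n δ hδ σ hσ R hR hs c).trans ?_
      rw [mul_assoc, mul_assoc]
      exact mul_le_mul_of_nonneg_right (by linarith) (by positivity)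
  · have hB := hIS (K₁ * R₀ * N ^ (6 + ε) * (1 + 8 ^ n / R₀)) (by positivity) (fun α hα a ha' => by
      have h := h6 n R₀ R₀ α hR₀ hα a ha'
      rw [h2R, ← hN] at h
      exact h)
    refine hB.trans ?_
    rw [h8n, h4n, ← hN]
    have e : L ^ 6 * N ^ 2 * (K₁ * R₀ * N ^ (6 + ε) * (1 + N ^ 3 / R₀)) =
        C₀ ^ 6 * K₁ * (R₀ ^ 4 * N ^ (-1 + ε) * (1 + N ^ 3 / R₀)) := by
      rw [p6, ← x1]
      ring
    rw [e]
    have hY : 0 ≤ R₀ ^ 4 * N ^ (-1 + ε) * (1 + N ^ 3 / R₀) := by positivity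
    calc D₁ * (C₀ ^ 6 * K₁ * (R₀ ^ 4 * N ^ (-1 + ε) * (1 + N ^ 3 / R₀)) + R₀)
        ≤ D₁ * (C₀ ^ 6 * K₁ * (R₀ ^ 4 * N ^ (-1 + ε) * (1 + N ^ 3 / R₀)) +
          R₀ ^ 4 * N ^ (-1 + ε) * (1 + N ^ 3 / R₀)) := mul_le_mul_of_nonneg_left (by linarith) hD₁0
      _ = E₁ * (R₀ ^ 4 * N ^ (-1 + ε) * (1 + N ^ 3 / R₀)) := by rw [hE₁]; ring
      _ ≤ (1 + C₁ + E₁) * (R₀ ^ 4 * N ^ (-1 + ε) * (1 + N ^ 3 / R₀)) :=
        mul_le_mul_of_nonneg_right (by linarith) hY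
      _ = _ := by ring

end Pool.Agent.Helper92.CP
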